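import Mathlib

set_option autoImplicit false

namespace Pool.Agent.N502.DressianRay

/-!
A ray of the Dressian `Dr(3,9)` that is not a corank subdivision.  The tropical Plücker vector `w` takes the
values `0, 1, 2`; it is encoded two bits per basis in the natural number `BIG`.  In the octahedron
`(0; 3,5,7,8)` the three sums are `0, 0, 3`, whereas for a corank vector the defect of an octahedron is an
integer between `0` and `2`, and `w` has octahedra of defect `1`.
-/

/-- Two bits per subset of `Fin 9` (indexed by its bit mask). -/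
def BIG : ℕ := 299095357128840629753240645783288298112275228130828472005617584213491859136731187145228573176706032252347380368290566008067089729060630083313877099147287567469477866986092344797312123947892888059904

/-- Bit mask. -/
def code (B : Finset (Fin 9)) : ℕ := ∑ i ∈ B, 2 ^ (i : ℕ)

/-- The height function (natural number valued). -/
def W (B : Finset (Fin 9)) : ℕ := (BIG / 4 ^ (code B)) % 4

/-- The height function. -/
noncomputable def w (B : Finset (Fin 9)) : ℝ := (W B : ℝ)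

/-- The height of the triple `a, b, c`. -/
def W3 (a b c : Fin 9) : ℕ := (BIG / 4 ^ (2 ^ (a : ℕ) + (2 ^ (b : ℕ) + 2 ^ (c : ℕ)))) % 4

lemma W_triple {a b c : Fin 9} (hab : a ≠ b) (hac : a ≠ c) (hbc : b ≠ c) :
    W (insert a (insert b {c})) = W3 a b c := by
  unfold W W3 code
  rw [Finset.sum_insert (by simp [hab, hac]), Finset.sum_insert (by simp [hbc]), Finset.sum_singleton]

/-- Three times the vectors defining the six maximal cells. -/
def C3 : Fin 6 → Fin 9 → ℤ :=
  ![![3, 3, -3, -3, 0, 0, 0, 0, -3], ![0, 0, 0, 0, 0, 0, 0, 0, 0], ![2, 2, -1, -1, -1, -1, 2, -1, -1], ![1, 1, -2, -2, 1, 1, 1, 1, -2], ![1, 1, -2, 1, -2, -2, 1, -2, 1], ![2, 2, -4, -4, -1, 2, -1, 2, -4]]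

/-- The three-term condition. -/
def TP (s i j k l : Fin 9) : Prop :=
    ((W3 i j s + W3 k l s = W3 i k s + W3 j l s ∧ W3 i j s + W3 k l s ≤ W3 i l s + W3 j k s) ∨
     (W3 i j s + W3 k l s = W3 i l s + W3 j k s ∧ W3 i j s + W3 k l s ≤ W3 i k s + W3 j l s) ∨
     (W3 i k s + W3 j l s = W3 i l s + W3 j k s ∧ W3 i k s + W3 j l s ≤ W3 i j s + W3 k l s))

instance (s i j k l : Fin 9) : Decidable (TP s i j k l) := by unfold TP; infer_instance

/-- Boolean test, skipping non-distinct tuples. -/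
def tpTest (s i j k l : Fin 9) : Bool :=
  decide (s = i) || (decide (s = j) || (decide (i = j) || (decide (s = k) || (decide (i = k) ||
  (decide (j = k) || (decide (s = l) || (decide (i = l) || (decide (j = l) || (decide (k = l) ||
  decide (TP s i j k l))))))))))

lemma tp_int : ∀ s i j k l : Fin 9, tpTest s i j k l = true := by
  decide +kernel

lemma cell_int : ∀ (m : Fin 6) (x y z : Fin 9), (decide (x = y) || (decide (x = z) || (decide (y = z) ||
    decide (C3 m x + (C3 m y + C3 m z) ≤ 3 * (W3 x y z : ℤ))))) = true := by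
  decide +kernel


/-- `P` is a basis in the `m`-th cell. -/
def InCell (m : Fin 6) (P : Finset (Fin 9)) : Prop :=
  P.card = 3 ∧ 3 * (W P : ℤ) = ∑ i ∈ P, C3 m i

instance (m : Fin 6) (P : Finset (Fin 9)) : Decidable (InCell m P) := by
  unfold InCell; infer_instance

/-- The cell of a height function `v` selected by `c`. -/
def cell (v : Finset (Fin 9) → ℝ) (c : Fin 9 → ℝ) : Set (Finset (Fin 9)) :=
  {B : Finset (Fin 9) | B.card = 3 ∧ ∀ B' : Finset (Fin 9), B'.card = 3 →
    v B - ∑ i ∈ B, c i ≤ v B' - ∑ i ∈ B', c i}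

lemma mem_cell_of_inCell {m : Fin 6} {P : Finset (Fin 9)} (h : InCell m P) :
    P ∈ cell w (fun i => (C3 m i : ℝ) / 3) := by
  refine ⟨h.1, fun B' hB' => ?_⟩
  obtain ⟨x, y, z, hxy, hxz, hyz, rfl⟩ := Finset.card_eq_three.1 hB'
  have h1 : C3 m x + (C3 m y + C3 m z) ≤ 3 * (W3 x y z : ℤ) := by
    have := cell_int m x y z
    simpa [hxy, hxz, hyz] using this
  have h2 : (3 : ℝ) * (W P : ℝ) = ∑ i ∈ P, (C3 m i : ℝ) := by
    have := h.2
    exact_mod_cast this
  have h3 : (C3 m x : ℝ) + ((C3 m y : ℝ) + (C3 m z : ℝ)) ≤ 3 * (W3 x y z : ℝ) := by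
    exact_mod_cast h1
  have h4 : w P - ∑ i ∈ P, (C3 m i : ℝ) / 3 = 0 := by
    rw [← Finset.sum_div, ← h2]; unfold w; ring
  have h5 : w {x, y, z} = (W3 x y z : ℝ) := by
    unfold w; rw [W_triple hxy hxz hyz]
  rw [h4, h5, ← Finset.sum_div, Finset.sum_insert (by simp [hxy, hxz]),
    Finset.sum_insert (by simp [hyz]), Finset.sum_singleton]
  linarith

/-- Affine dependences inside a cell give linear relations. -/
lemma rel4 {v : Finset (Fin 9) → ℝ}
    (Hc : ∀ c : Fin 9 → ℝ, ∃ c' : Fin 9 → ℝ, cell w c ⊆ cell v c')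
    (m : Fin 6) (P Q R T : Finset (Fin 9)) (hP : InCell m P) (hQ : InCell m Q) (hR : InCell m R)
    (hT : InCell m T) (hs : P.val + Q.val = R.val + T.val) : v P + v Q = v R + v T := by
  obtain ⟨c', hc'⟩ := Hc (fun i => (C3 m i : ℝ) / 3)
  have p := hc' (mem_cell_of_inCell hP)
  have q := hc' (mem_cell_of_inCell hQ)
  have r := hc' (mem_cell_of_inCell hR)
  have t := hc' (mem_cell_of_inCell hT)
  have e1 : v P - ∑ i ∈ P, c' i = v R - ∑ i ∈ R, c' i := le_antisymm (p.2 R r.1) (r.2 P p.1)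
  have e2 : v Q - ∑ i ∈ Q, c' i = v T - ∑ i ∈ T, c' i := le_antisymm (q.2 T t.1) (t.2 Q q.1)
  have e3 : (P.val.map c').sum + (Q.val.map c').sum = (R.val.map c').sum + (T.val.map c').sum := by
    rw [← Multiset.sum_add, ← Multiset.map_add, hs, Multiset.map_add, Multiset.sum_add]
  have e4 : ∑ i ∈ P, c' i + ∑ i ∈ Q, c' i = ∑ i ∈ R, c' i + ∑ i ∈ T, c' i := e3
  linarith


/-- All triples. -/
def L : List (Finset (Fin 9)) :=
  [{0, 1, 2}, {0, 1, 3}, {0, 1, 4}, {0, 1, 5}, {0, 1, 6}, {0, 1, 7}, {0, 1, 8}, {0, 2, 3}, {0, 2, 4}, {0, 2, 5}, {0, 2, 6}, {0, 2, 7}, {0, 2, 8}, {0, 3, 4}, {0, 3, 5}, {0, 3, 6}, {0, 3, 7}, {0, 3, 8}, {0, 4, 5}, {0, 4, 6}, {0, 4, 7}, {0, 4, 8}, {0, 5, 6}, {0, 5, 7}, {0, 5, 8}, {0, 6, 7}, {0, 6, 8}, {0, 7, 8}, {1, 2, 3}, {1, 2, 4}, {1, 2, 5}, {1, 2, 6}, {1, 2, 7}, {1, 2, 8}, {1, 3, 4}, {1, 3, 5}, {1, 3, 6}, {1, 3, 7}, {1, 3, 8}, {1, 4, 5}, {1, 4, 6}, {1, 4, 7}, {1, 4, 8}, {1, 5, 6}, {1, 5, 7}, {1, 5, 8}, {1, 6, 7}, {1, 6, 8}, {1, 7, 8}, {2, 3, 4},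 {2, 3, 5}, {2, 3, 6}, {2, 3, 7}, {2, 3, 8}, {2, 4, 5}, {2, 4, 6}, {2, 4, 7}, {2, 4, 8}, {2, 5, 6}, {2, 5, 7}, {2, 5, 8}, {2, 6, 7}, {2, 6, 8}, {2, 7, 8}, {3, 4, 5}, {3, 4, 6}, {3, 4, 7}, {3, 4, 8}, {3, 5, 6}, {3, 5, 7}, {3, 5, 8}, {3, 6, 7}, {3, 6, 8}, {3, 7, 8}, {4, 5, 6}, {4, 5, 7}, {4, 5, 8}, {4, 6, 7}, {4, 6, 8}, {4, 7, 8}, {5, 6, 7}, {5, 6, 8}, {5, 7, 8}, {6, 7, 8}]

lemma mem_L : ∀ B : Finset (Fin 9), B.card = 3 → B ∈ L := by
  decide +kernel


lemma lin_of_cells {v : Finset (Fin 9) → ℝ}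
    (Hc : ∀ c : Fin 9 → ℝ, ∃ c' : Fin 9 → ℝ, cell w c ⊆ cell v c') :
    ∃ (α : ℝ) (a : Fin 9 → ℝ), ∀ B : Finset (Fin 9), B.card = 3 → v B = α * w B + ∑ i ∈ B, a i := by

  obtain ⟨α, hα⟩ : ∃ x : ℝ, x = (1 : ℝ) * v {0, 2, 3} + (1 : ℝ) * v {1, 4, 7} + (-1 : ℝ) * v {1, 2, 4} + (-1 : ℝ) * v {0, 3, 7} := ⟨_, rfl⟩
  obtain ⟨a0, ha0⟩ : ∃ x : ℝ, x = (1/3 : ℝ) * v {0, 2, 3} + (1/3 : ℝ) * v {0, 2, 8} + (-1/3 : ℝ) * v {2, 3, 8} + (-1/3 : ℝ) * v {2, 3, 7} + (1/3 : ℝ) * v {0, 3, 7} := ⟨_, rfl⟩
  obtain ⟨a1, ha1⟩ : ∃ x : ℝ, x = (-1 : ℝ) * v {2, 4, 6} + (-2/3 : ℝ) * v {0, 2, 3} + (1/3 : ℝ) * v {0, 2, 8} + (1 : ℝ) * v {1, 2, 4} + (-1/3 : ℝ) * v {2, 3, 8} + (1 : ℝ) * v {2, 3, 6} + (-1/3 : ℝ) * v {2, 3, 7} + (1/3 : ℝ) * v {0, 3, 7} := ⟨_, rfl⟩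
  obtain ⟨a2, ha2⟩ : ∃ x : ℝ, x = (1/3 : ℝ) * v {0, 2, 3} + (1/3 : ℝ) * v {0, 2, 8} + (-1/3 : ℝ) * v {2, 3, 8} + (2/3 : ℝ) * v {2, 3, 7} + (-2/3 : ℝ) * v {0, 3, 7} := ⟨_, rfl⟩
  obtain ⟨a3, ha3⟩ : ∃ x : ℝ, x = (1/3 : ℝ) * v {0, 2, 3} + (-2/3 : ℝ) * v {0, 2, 8} + (2/3 : ℝ) * v {2, 3, 8} + (-1/3 : ℝ) * v {2, 3, 7} + (1/3 : ℝ) * v {0, 3, 7} := ⟨_, rfl⟩
  obtain ⟨a4, ha4⟩ : ∃ x : ℝ, x = (1 : ℝ) * v {2, 4, 6} + (1/3 : ℝ) * v {0, 2, 3} + (-2/3 : ℝ) * v {0, 2, 8} + (2/3 : ℝ) * v {2, 3, 8} + (-1 : ℝ) * v {2, 3, 6} + (-1/3 : ℝ) * v {2, 3, 7} + (1/3 : ℝ) * v {0, 3, 7} := ⟨_, rfl⟩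
  obtain ⟨a5, ha5⟩ : ∃ x : ℝ, x = (4/3 : ℝ) * v {0, 2, 3} + (-2/3 : ℝ) * v {0, 2, 8} + (1 : ℝ) * v {5, 6, 8} + (-1/3 : ℝ) * v {2, 3, 8} + (-1 : ℝ) * v {2, 3, 6} + (2/3 : ℝ) * v {2, 3, 7} + (-2/3 : ℝ) * v {0, 3, 7} := ⟨_, rfl⟩
  obtain ⟨a6, ha6⟩ : ∃ x : ℝ, x = (-2/3 : ℝ) * v {0, 2, 3} + (1/3 : ℝ) * v {0, 2, 8} + (-1/3 : ℝ) * v {2, 3, 8} + (1 : ℝ) * v {2, 3, 6} + (-1/3 : ℝ) * v {2, 3, 7} + (1/3 : ℝ) * v {0, 3, 7} := ⟨_, rfl⟩
  obtain ⟨a7, ha7⟩ : ∃ x : ℝ, x = (-2/3 : ℝ) * v {0, 2, 3} + (1/3 : ℝ) * v {0, 2, 8} + (-1/3 : ℝ) * v {2, 3, 8} + (2/3 : ℝ) * v {2, 3, 7} + (1/3 : ℝ) * v {0, 3, 7} := ⟨_, rfl⟩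
  obtain ⟨a8, ha8⟩ : ∃ x : ℝ, x = (-2/3 : ℝ) * v {0, 2, 3} + (1/3 : ℝ) * v {0, 2, 8} + (2/3 : ℝ) * v {2, 3, 8} + (-1/3 : ℝ) * v {2, 3, 7} + (1/3 : ℝ) * v {0, 3, 7} := ⟨_, rfl⟩
  obtain ⟨a, ha⟩ : ∃ x : Fin 9 → ℝ, x = ![a0, a1, a2, a3, a4, a5, a6, a7, a8] := ⟨_, rfl⟩
  refine ⟨α, a, ?_⟩
  obtain ⟨u, hu⟩ : ∃ u : Finset (Fin 9) → ℝ, ∀ B, u B = v B - (α * w B + ∑ i ∈ B, a i) :=
    ⟨_, fun _ => rfl⟩
  suffices hL : ∀ B ∈ L, u B = 0 by
    intro B hB
    have := hL B (mem_L B hB)
    rw [hu] at this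
    linarith
  have Hw : ∀ c : Fin 9 → ℝ, ∃ c' : Fin 9 → ℝ, cell w c ⊆ cell w c' := fun c => ⟨c, subset_rfl⟩
  have R : ∀ (m : Fin 6) (P Q R T : Finset (Fin 9)), InCell m P → InCell m Q → InCell m R → InCell m T →
      P.val + Q.val = R.val + T.val → u P + u Q = u R + u T := by
    intro m P Q R T hP hQ hR hT hs
    have h1 := rel4 Hc m P Q R T hP hQ hR hT hs
    have h2 := rel4 Hw m P Q R T hP hQ hR hT hs
    have e3 : (P.val.map a).sum + (Q.val.map a).sum = (R.val.map a).sum + (T.val.map a).sum := by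
      rw [← Multiset.sum_add, ← Multiset.map_add, hs, Multiset.map_add, Multiset.sum_add]
    have e4 : ∑ i ∈ P, a i + ∑ i ∈ Q, a i = ∑ i ∈ R, a i + ∑ i ∈ T, a i := e3
    rw [hu, hu, hu, hu]
    linear_combination h1 - α * h2 - e4
  have h55 : u {2, 4, 6} = 0 := by
    have e : ∑ i ∈ ({2, 4, 6} : Finset (Fin 9)), a i = a2 + (a4 + a6) := by
      rw [Finset.sum_insert (by decide), Finset.sum_insert (by decide), Finset.sum_singleton, ha]; rfl
    have e2 : W {2, 4, 6} = 0 := by decide +kernel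
    rw [hu]
    show v {2, 4, 6} - (α * (W {2, 4, 6} : ℝ) + ∑ i ∈ ({2, 4, 6} : Finset (Fin 9)), a i) = 0
    rw [e, e2, hα, ha2, ha4, ha6]; push_cast; ring
  have h7 : u {0, 2, 3} = 0 := by
    have e : ∑ i ∈ ({0, 2, 3} : Finset (Fin 9)), a i = a0 + (a2 + a3) := by
      rw [Finset.sum_insert (by decide), Finset.sum_insert (by decide), Finset.sum_singleton, ha]; rfl
    have e2 : W {0, 2, 3} = 0 := by decide +kernel
    rw [hu]
    show v {0, 2, 3} - (α * (W {0, 2, 3} : ℝ) + ∑ i ∈ ({0, 2, 3} : Finset (Fin 9)), a i) = 0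
    rw [e, e2, hα, ha0, ha2, ha3]; push_cast; ring
  have h12 : u {0, 2, 8} = 0 := by
    have e : ∑ i ∈ ({0, 2, 8} : Finset (Fin 9)), a i = a0 + (a2 + a8) := by
      rw [Finset.sum_insert (by decide), Finset.sum_insert (by decide), Finset.sum_singleton, ha]; rfl
    have e2 : W {0, 2, 8} = 0 := by decide +kernel
    rw [hu]
    show v {0, 2, 8} - (α * (W {0, 2, 8} : ℝ) + ∑ i ∈ ({0, 2, 8} : Finset (Fin 9)), a i) = 0
    rw [e, e2, hα, ha0, ha2, ha8]; push_cast; ring
  have h41 : u {1, 4, 7} = 0 := by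
    have e : ∑ i ∈ ({1, 4, 7} : Finset (Fin 9)), a i = a1 + (a4 + a7) := by
      rw [Finset.sum_insert (by decide), Finset.sum_insert (by decide), Finset.sum_singleton, ha]; rfl
    have e2 : W {1, 4, 7} = 1 := by decide +kernel
    rw [hu]
    show v {1, 4, 7} - (α * (W {1, 4, 7} : ℝ) + ∑ i ∈ ({1, 4, 7} : Finset (Fin 9)), a i) = 0
    rw [e, e2, hα, ha1, ha4, ha7]; push_cast; ring
  have h81 : u {5, 6, 8} = 0 := by
    have e : ∑ i ∈ ({5, 6, 8} : Finset (Fin 9)), a i = a5 + (a6 + a8) := by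
      rw [Finset.sum_insert (by decide), Finset.sum_insert (by decide), Finset.sum_singleton, ha]; rfl
    have e2 : W {5, 6, 8} = 0 := by decide +kernel
    rw [hu]
    show v {5, 6, 8} - (α * (W {5, 6, 8} : ℝ) + ∑ i ∈ ({5, 6, 8} : Finset (Fin 9)), a i) = 0
    rw [e, e2, hα, ha5, ha6, ha8]; push_cast; ring
  have h29 : u {1, 2, 4} = 0 := by
    have e : ∑ i ∈ ({1, 2, 4} : Finset (Fin 9)), a i = a1 + (a2 + a4) := by
      rw [Finset.sum_insert (by decide), Finset.sum_insert (by decide), Finset.sum_singleton, ha]; rfl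
    have e2 : W {1, 2, 4} = 0 := by decide +kernel
    rw [hu]
    show v {1, 2, 4} - (α * (W {1, 2, 4} : ℝ) + ∑ i ∈ ({1, 2, 4} : Finset (Fin 9)), a i) = 0
    rw [e, e2, hα, ha1, ha2, ha4]; push_cast; ring
  have h53 : u {2, 3, 8} = 0 := by
    have e : ∑ i ∈ ({2, 3, 8} : Finset (Fin 9)), a i = a2 + (a3 + a8) := by
      rw [Finset.sum_insert (by decide), Finset.sum_insert (by decide), Finset.sum_singleton, ha]; rfl
    have e2 : W {2, 3, 8} = 0 := by decide +kernel
    rw [hu]
    show v {2, 3, 8} - (α * (W {2, 3, 8} : ℝ) + ∑ i ∈ ({2, 3, 8} : Finset (Fin 9)), a i) = 0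
    rw [e, e2, hα, ha2, ha3, ha8]; push_cast; ring
  have h51 : u {2, 3, 6} = 0 := by
    have e : ∑ i ∈ ({2, 3, 6} : Finset (Fin 9)), a i = a2 + (a3 + a6) := by
      rw [Finset.sum_insert (by decide), Finset.sum_insert (by decide), Finset.sum_singleton, ha]; rfl
    have e2 : W {2, 3, 6} = 0 := by decide +kernel
    rw [hu]
    show v {2, 3, 6} - (α * (W {2, 3, 6} : ℝ) + ∑ i ∈ ({2, 3, 6} : Finset (Fin 9)), a i) = 0
    rw [e, e2, hα, ha2, ha3, ha6]; push_cast; ring
  have h52 : u {2, 3, 7} = 0 := by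
    have e : ∑ i ∈ ({2, 3, 7} : Finset (Fin 9)), a i = a2 + (a3 + a7) := by
      rw [Finset.sum_insert (by decide), Finset.sum_insert (by decide), Finset.sum_singleton, ha]; rfl
    have e2 : W {2, 3, 7} = 0 := by decide +kernel
    rw [hu]
    show v {2, 3, 7} - (α * (W {2, 3, 7} : ℝ) + ∑ i ∈ ({2, 3, 7} : Finset (Fin 9)), a i) = 0
    rw [e, e2, hα, ha2, ha3, ha7]; push_cast; ring
  have h16 : u {0, 3, 7} = 0 := by
    have e : ∑ i ∈ ({0, 3, 7} : Finset (Fin 9)), a i = a0 + (a3 + a7) := by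
      rw [Finset.sum_insert (by decide), Finset.sum_insert (by decide), Finset.sum_singleton, ha]; rfl
    have e2 : W {0, 3, 7} = 0 := by decide +kernel
    rw [hu]
    show v {0, 3, 7} - (α * (W {0, 3, 7} : ℝ) + ∑ i ∈ ({0, 3, 7} : Finset (Fin 9)), a i) = 0
    rw [e, e2, hα, ha0, ha3, ha7]; push_cast; ring
  have h27 : u {0, 7, 8} = 0 := by
    have := R 1 {0, 2, 3} {0, 7, 8} {0, 2, 8} {0, 3, 7} (by decide +kernel) (by decide +kernel) (by decide +kernel) (by decide +kernel) (by decide +kernel)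
    linear_combination this - h7 + h12 + h16
  have h8 : u {0, 2, 4} = 0 := by
    have := R 1 {0, 2, 3} {2, 4, 6} {0, 2, 4} {2, 3, 6} (by decide +kernel) (by decide +kernel) (by decide +kernel) (by decide +kernel) (by decide +kernel)
    linear_combination -this + h7 + h55 - h51
  have h56 : u {2, 4, 7} = 0 := by
    have := R 1 {0, 2, 3} {2, 4, 7} {0, 2, 4} {2, 3, 7} (by decide +kernel) (by decide +kernel) (by decide +kernel) (by decide +kernel) (by decide +kernel)
    linear_combination this - h7 + h8 + h52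
  have h57 : u {2, 4, 8} = 0 := by
    have := R 1 {0, 2, 3} {2, 4, 8} {0, 2, 4} {2, 3, 8} (by decide +kernel) (by decide +kernel) (by decide +kernel) (by decide +kernel) (by decide +kernel)
    linear_combination this - h7 + h8 + h53
  have h49 : u {2, 3, 4} = 0 := by
    have := R 1 {0, 2, 3} {2, 4, 8} {0, 2, 8} {2, 3, 4} (by decide +kernel) (by decide +kernel) (by decide +kernel) (by decide +kernel) (by decide +kernel)
    linear_combination -this + h7 + h57 - h12
  have h62 : u {2, 6, 8} = 0 := by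
    have := R 1 {0, 2, 3} {2, 6, 8} {0, 2, 8} {2, 3, 6} (by decide +kernel) (by decide +kernel) (by decide +kernel) (by decide +kernel) (by decide +kernel)
    linear_combination this - h7 + h12 + h51
  have h63 : u {2, 7, 8} = 0 := by
    have := R 1 {0, 2, 3} {2, 7, 8} {0, 2, 8} {2, 3, 7} (by decide +kernel) (by decide +kernel) (by decide +kernel) (by decide +kernel) (by decide +kernel)
    linear_combination this - h7 + h12 + h52
  have h11 : u {0, 2, 7} = 0 := by
    have := R 1 {0, 2, 7} {2, 3, 8} {0, 2, 8} {2, 3, 7} (by decide +kernel) (by decide +kernel) (by decide +kernel) (by decide +kernel) (by decide +kernel)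
    linear_combination this - h53 + h12 + h52
  have h61 : u {2, 6, 7} = 0 := by
    have := R 1 {0, 2, 4} {2, 6, 7} {0, 2, 7} {2, 4, 6} (by decide +kernel) (by decide +kernel) (by decide +kernel) (by decide +kernel) (by decide +kernel)
    linear_combination this - h8 + h11 + h55
  have h28 : u {1, 2, 3} = 0 := by
    have := R 1 {1, 2, 3} {2, 4, 6} {1, 2, 4} {2, 3, 6} (by decide +kernel) (by decide +kernel) (by decide +kernel) (by decide +kernel) (by decide +kernel)
    linear_combination this - h55 + h29 + h51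
  have h32 : u {1, 2, 7} = 0 := by
    have := R 1 {1, 2, 3} {2, 4, 7} {1, 2, 7} {2, 3, 4} (by decide +kernel) (by decide +kernel) (by decide +kernel) (by decide +kernel) (by decide +kernel)
    linear_combination -this + h28 + h56 - h49
  have h33 : u {1, 2, 8} = 0 := by
    have := R 1 {1, 2, 3} {2, 4, 8} {1, 2, 8} {2, 3, 4} (by decide +kernel) (by decide +kernel) (by decide +kernel) (by decide +kernel) (by decide +kernel)
    linear_combination -this + h28 + h57 - h49
  have h37 : u {1, 3, 7} = 0 := by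
    have := R 1 {0, 2, 3} {1, 3, 7} {0, 3, 7} {1, 2, 3} (by decide +kernel) (by decide +kernel) (by decide +kernel) (by decide +kernel) (by decide +kernel)
    linear_combination this - h7 + h16 + h28
  have h66 : u {3, 4, 7} = 0 := by
    have := R 1 {0, 2, 3} {3, 4, 7} {0, 3, 7} {2, 3, 4} (by decide +kernel) (by decide +kernel) (by decide +kernel) (by decide +kernel) (by decide +kernel)
    linear_combination this - h7 + h16 + h49
  have h13 : u {0, 3, 4} = 0 := by
    have := R 1 {0, 3, 4} {2, 3, 7} {0, 3, 7} {2, 3, 4} (by decide +kernel) (by decide +kernel) (by decide +kernel) (by decide +kernel) (by decide +kernel)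
    linear_combination this - h52 + h16 + h49
  have h67 : u {3, 4, 8} = 0 := by
    have := R 1 {0, 2, 3} {3, 4, 8} {0, 3, 4} {2, 3, 8} (by decide +kernel) (by decide +kernel) (by decide +kernel) (by decide +kernel) (by decide +kernel)
    linear_combination this - h7 + h13 + h53
  have h71 : u {3, 6, 7} = 0 := by
    have := R 1 {0, 2, 3} {3, 6, 7} {0, 3, 7} {2, 3, 6} (by decide +kernel) (by decide +kernel) (by decide +kernel) (by decide +kernel) (by decide +kernel)
    linear_combination this - h7 + h16 + h51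
  have h73 : u {3, 7, 8} = 0 := by
    have := R 1 {0, 2, 3} {3, 7, 8} {0, 3, 7} {2, 3, 8} (by decide +kernel) (by decide +kernel) (by decide +kernel) (by decide +kernel) (by decide +kernel)
    linear_combination this - h7 + h16 + h53
  have h65 : u {3, 4, 6} = 0 := by
    have := R 1 {0, 3, 4} {3, 6, 7} {0, 3, 7} {3, 4, 6} (by decide +kernel) (by decide +kernel) (by decide +kernel) (by decide +kernel) (by decide +kernel)
    linear_combination -this + h13 + h71 - h16
  have h34 : u {1, 3, 4} = 0 := by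
    have := R 1 {1, 2, 3} {3, 4, 6} {1, 3, 4} {2, 3, 6} (by decide +kernel) (by decide +kernel) (by decide +kernel) (by decide +kernel) (by decide +kernel)
    linear_combination -this + h28 + h65 - h51
  have h20 : u {0, 4, 7} = 0 := by
    have := R 0 {0, 2, 4} {1, 4, 7} {0, 4, 7} {1, 2, 4} (by decide +kernel) (by decide +kernel) (by decide +kernel) (by decide +kernel) (by decide +kernel)
    linear_combination -this + h8 + h41 - h29
  have h21 : u {0, 4, 8} = 0 := by
    have := R 1 {0, 2, 4} {3, 4, 8} {0, 4, 8} {2, 3, 4} (by decide +kernel) (by decide +kernel) (by decide +kernel) (by decide +kernel) (by decide +kernel)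
    linear_combination -this + h8 + h67 - h49
  have h77 : u {4, 6, 7} = 0 := by
    have := R 3 {0, 2, 4} {4, 6, 7} {0, 4, 7} {2, 4, 6} (by decide +kernel) (by decide +kernel) (by decide +kernel) (by decide +kernel) (by decide +kernel)
    linear_combination this - h8 + h20 + h55
  have h19 : u {0, 4, 6} = 0 := by
    have := R 3 {0, 4, 6} {2, 4, 7} {0, 4, 7} {2, 4, 6} (by decide +kernel) (by decide +kernel) (by decide +kernel) (by decide +kernel) (by decide +kernel)
    linear_combination this - h56 + h20 + h55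
  have h78 : u {4, 6, 8} = 0 := by
    have := R 1 {0, 2, 4} {4, 6, 8} {0, 4, 8} {2, 4, 6} (by decide +kernel) (by decide +kernel) (by decide +kernel) (by decide +kernel) (by decide +kernel)
    linear_combination this - h8 + h21 + h55
  have h79 : u {4, 7, 8} = 0 := by
    have := R 1 {0, 2, 4} {4, 7, 8} {0, 4, 8} {2, 4, 7} (by decide +kernel) (by decide +kernel) (by decide +kernel) (by decide +kernel) (by decide +kernel)
    linear_combination this - h8 + h21 + h56
  have h42 : u {1, 4, 8} = 0 := by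
    have := R 1 {1, 2, 4} {3, 4, 8} {1, 4, 8} {2, 3, 4} (by decide +kernel) (by decide +kernel) (by decide +kernel) (by decide +kernel) (by decide +kernel)
    linear_combination -this + h29 + h67 - h49
  have h40 : u {1, 4, 6} = 0 := by
    have := R 3 {1, 2, 4} {4, 6, 7} {1, 4, 6} {2, 4, 7} (by decide +kernel) (by decide +kernel) (by decide +kernel) (by decide +kernel) (by decide +kernel)
    linear_combination -this + h29 + h77 - h56
  have h10 : u {0, 2, 6} = 0 := by
    have := R 2 {0, 2, 6} {3, 4, 6} {0, 4, 6} {2, 3, 6} (by decide +kernel) (by decide +kernel) (by decide +kernel) (by decide +kernel) (by decide +kernel)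
    linear_combination this - h65 + h19 + h51
  have h15 : u {0, 3, 6} = 0 := by
    have := R 2 {0, 3, 6} {2, 4, 6} {0, 4, 6} {2, 3, 6} (by decide +kernel) (by decide +kernel) (by decide +kernel) (by decide +kernel) (by decide +kernel)
    linear_combination this - h55 + h19 + h51
  have h25 : u {0, 6, 7} = 0 := by
    have := R 2 {0, 2, 6} {3, 6, 7} {0, 6, 7} {2, 3, 6} (by decide +kernel) (by decide +kernel) (by decide +kernel) (by decide +kernel) (by decide +kernel)
    linear_combination -this + h10 + h71 - h51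
  have h26 : u {0, 6, 8} = 0 := by
    have := R 2 {0, 3, 6} {2, 6, 8} {0, 6, 8} {2, 3, 6} (by decide +kernel) (by decide +kernel) (by decide +kernel) (by decide +kernel) (by decide +kernel)
    linear_combination -this + h15 + h62 - h51
  have h22 : u {0, 5, 6} = 0 := by
    have := R 2 {0, 2, 6} {5, 6, 8} {0, 5, 6} {2, 6, 8} (by decide +kernel) (by decide +kernel) (by decide +kernel) (by decide +kernel) (by decide +kernel)
    linear_combination -this + h10 + h81 - h62
  have h58 : u {2, 5, 6} = 0 := by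
    have := R 2 {0, 2, 6} {5, 6, 8} {0, 6, 8} {2, 5, 6} (by decide +kernel) (by decide +kernel) (by decide +kernel) (by decide +kernel) (by decide +kernel)
    linear_combination -this + h10 + h81 - h26
  have h83 : u {6, 7, 8} = 0 := by
    have := R 2 {0, 2, 6} {6, 7, 8} {0, 6, 7} {2, 6, 8} (by decide +kernel) (by decide +kernel) (by decide +kernel) (by decide +kernel) (by decide +kernel)
    linear_combination this - h10 + h25 + h62
  have h68 : u {3, 5, 6} = 0 := by
    have := R 2 {0, 4, 6} {3, 5, 6} {0, 5, 6} {3, 4, 6} (by decide +kernel) (by decide +kernel) (by decide +kernel) (by decide +kernel) (by decide +kernel)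
    linear_combination this - h19 + h22 + h65
  have h80 : u {5, 6, 7} = 0 := by
    have := R 3 {0, 4, 6} {5, 6, 7} {0, 5, 6} {4, 6, 7} (by decide +kernel) (by decide +kernel) (by decide +kernel) (by decide +kernel) (by decide +kernel)
    linear_combination this - h19 + h22 + h77
  have h74 : u {4, 5, 6} = 0 := by
    have := R 3 {0, 4, 6} {5, 6, 7} {0, 6, 7} {4, 5, 6} (by decide +kernel) (by decide +kernel) (by decide +kernel) (by decide +kernel) (by decide +kernel)
    linear_combination -this + h19 + h80 - h25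
  have h31 : u {1, 2, 6} = 0 := by
    have := R 2 {1, 2, 6} {3, 4, 6} {1, 4, 6} {2, 3, 6} (by decide +kernel) (by decide +kernel) (by decide +kernel) (by decide +kernel) (by decide +kernel)
    linear_combination this - h65 + h40 + h51
  have h36 : u {1, 3, 6} = 0 := by
    have := R 2 {1, 3, 6} {2, 4, 6} {1, 4, 6} {2, 3, 6} (by decide +kernel) (by decide +kernel) (by decide +kernel) (by decide +kernel) (by decide +kernel)
    linear_combination this - h55 + h40 + h51
  have h43 : u {1, 5, 6} = 0 := by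
    have := R 2 {1, 2, 6} {3, 5, 6} {1, 5, 6} {2, 3, 6} (by decide +kernel) (by decide +kernel) (by decide +kernel) (by decide +kernel) (by decide +kernel)
    linear_combination -this + h31 + h68 - h51
  have h46 : u {1, 6, 7} = 0 := by
    have := R 2 {1, 2, 6} {3, 6, 7} {1, 6, 7} {2, 3, 6} (by decide +kernel) (by decide +kernel) (by decide +kernel) (by decide +kernel) (by decide +kernel)
    linear_combination -this + h31 + h71 - h51
  have h47 : u {1, 6, 8} = 0 := by
    have := R 2 {1, 3, 6} {2, 6, 8} {1, 6, 8} {2, 3, 6} (by decide +kernel) (by decide +kernel) (by decide +kernel) (by decide +kernel) (by decide +kernel)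
    linear_combination -this + h36 + h62 - h51
  have h48 : u {1, 7, 8} = 0 := by
    have := R 0 {0, 2, 7} {1, 7, 8} {0, 7, 8} {1, 2, 7} (by decide +kernel) (by decide +kernel) (by decide +kernel) (by decide +kernel) (by decide +kernel)
    linear_combination this - h11 + h27 + h32
  have h59 : u {2, 5, 7} = 0 := by
    have := R 3 {0, 2, 7} {5, 6, 7} {0, 6, 7} {2, 5, 7} (by decide +kernel) (by decide +kernel) (by decide +kernel) (by decide +kernel) (by decide +kernel)
    linear_combination -this + h11 + h80 - h25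
  have h82 : u {5, 7, 8} = 0 := by
    have := R 1 {0, 2, 7} {5, 7, 8} {0, 7, 8} {2, 5, 7} (by decide +kernel) (by decide +kernel) (by decide +kernel) (by decide +kernel) (by decide +kernel)
    linear_combination this - h11 + h27 + h59
  have h69 : u {3, 5, 7} = 0 := by
    have := R 3 {0, 3, 7} {5, 6, 7} {0, 6, 7} {3, 5, 7} (by decide +kernel) (by decide +kernel) (by decide +kernel) (by decide +kernel) (by decide +kernel)
    linear_combination -this + h16 + h80 - h25
  have h75 : u {4, 5, 7} = 0 := by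
    have := R 3 {0, 4, 7} {5, 6, 7} {0, 6, 7} {4, 5, 7} (by decide +kernel) (by decide +kernel) (by decide +kernel) (by decide +kernel) (by decide +kernel)
    linear_combination -this + h20 + h80 - h25
  have h6 : u {0, 1, 8} = 0 := by
    have := R 2 {0, 1, 8} {2, 6, 8} {0, 2, 8} {1, 6, 8} (by decide +kernel) (by decide +kernel) (by decide +kernel) (by decide +kernel) (by decide +kernel)
    linear_combination this - h62 + h12 + h47
  have h17 : u {0, 3, 8} = 0 := by
    have := R 4 {0, 1, 8} {3, 4, 8} {0, 3, 8} {1, 4, 8} (by decide +kernel) (by decide +kernel) (by decide +kernel) (by decide +kernel) (by decide +kernel)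
    linear_combination -this + h6 + h67 - h42
  have h38 : u {1, 3, 8} = 0 := by
    have := R 4 {0, 1, 8} {3, 4, 8} {0, 4, 8} {1, 3, 8} (by decide +kernel) (by decide +kernel) (by decide +kernel) (by decide +kernel) (by decide +kernel)
    linear_combination -this + h6 + h67 - h21
  have h72 : u {3, 6, 8} = 0 := by
    have := R 4 {0, 1, 8} {3, 6, 8} {0, 3, 8} {1, 6, 8} (by decide +kernel) (by decide +kernel) (by decide +kernel) (by decide +kernel) (by decide +kernel)
    linear_combination this - h6 + h17 + h47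
  have h24 : u {0, 5, 8} = 0 := by
    have := R 2 {0, 1, 8} {5, 6, 8} {0, 5, 8} {1, 6, 8} (by decide +kernel) (by decide +kernel) (by decide +kernel) (by decide +kernel) (by decide +kernel)
    linear_combination -this + h6 + h81 - h47
  have h45 : u {1, 5, 8} = 0 := by
    have := R 2 {0, 1, 8} {5, 6, 8} {0, 6, 8} {1, 5, 8} (by decide +kernel) (by decide +kernel) (by decide +kernel) (by decide +kernel) (by decide +kernel)
    linear_combination -this + h6 + h81 - h26
  have h70 : u {3, 5, 8} = 0 := by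
    have := R 1 {0, 2, 8} {3, 5, 8} {0, 5, 8} {2, 3, 8} (by decide +kernel) (by decide +kernel) (by decide +kernel) (by decide +kernel) (by decide +kernel)
    linear_combination this - h12 + h24 + h53
  have h76 : u {4, 5, 8} = 0 := by
    have := R 1 {0, 2, 8} {4, 5, 8} {0, 5, 8} {2, 4, 8} (by decide +kernel) (by decide +kernel) (by decide +kernel) (by decide +kernel) (by decide +kernel)
    linear_combination this - h12 + h24 + h57
  have h60 : u {2, 5, 8} = 0 := by
    have := R 1 {0, 4, 8} {2, 5, 8} {0, 5, 8} {2, 4, 8} (by decide +kernel) (by decide +kernel) (by decide +kernel) (by decide +kernel) (by decide +kernel)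
    linear_combination this - h21 + h24 + h57
  have h1 : u {0, 1, 3} = 0 := by
    have := R 2 {0, 1, 3} {0, 2, 8} {0, 1, 8} {0, 2, 3} (by decide +kernel) (by decide +kernel) (by decide +kernel) (by decide +kernel) (by decide +kernel)
    linear_combination this - h12 + h6 + h7
  have h0 : u {0, 1, 2} = 0 := by
    have := R 0 {0, 1, 2} {0, 4, 8} {0, 1, 8} {0, 2, 4} (by decide +kernel) (by decide +kernel) (by decide +kernel) (by decide +kernel) (by decide +kernel)
    linear_combination this - h21 + h6 + h8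
  have h9 : u {0, 2, 5} = 0 := by
    have := R 0 {0, 1, 2} {0, 5, 8} {0, 1, 8} {0, 2, 5} (by decide +kernel) (by decide +kernel) (by decide +kernel) (by decide +kernel) (by decide +kernel)
    linear_combination -this + h0 + h24 - h6
  have h4 : u {0, 1, 6} = 0 := by
    have := R 0 {0, 1, 2} {0, 6, 7} {0, 1, 6} {0, 2, 7} (by decide +kernel) (by decide +kernel) (by decide +kernel) (by decide +kernel) (by decide +kernel)
    linear_combination -this + h0 + h25 - h11
  have h2 : u {0, 1, 4} = 0 := by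
    have := R 0 {0, 1, 3} {0, 4, 7} {0, 1, 4} {0, 3, 7} (by decide +kernel) (by decide +kernel) (by decide +kernel) (by decide +kernel) (by decide +kernel)
    linear_combination -this + h1 + h20 - h16
  have h5 : u {0, 1, 7} = 0 := by
    have := R 0 {0, 1, 3} {0, 4, 7} {0, 1, 7} {0, 3, 4} (by decide +kernel) (by decide +kernel) (by decide +kernel) (by decide +kernel) (by decide +kernel)
    linear_combination -this + h1 + h20 - h13
  have h14 : u {0, 3, 5} = 0 := by
    have := R 0 {0, 1, 3} {0, 5, 6} {0, 1, 6} {0, 3, 5} (by decide +kernel) (by decide +kernel) (by decide +kernel) (by decide +kernel) (by decide +kernel)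
    linear_combination -this + h1 + h22 - h4
  have h3 : u {0, 1, 5} = 0 := by
    have := R 0 {0, 1, 5} {0, 3, 7} {0, 1, 7} {0, 3, 5} (by decide +kernel) (by decide +kernel) (by decide +kernel) (by decide +kernel) (by decide +kernel)
    linear_combination this - h16 + h5 + h14
  have h18 : u {0, 4, 5} = 0 := by
    have := R 0 {0, 1, 4} {0, 5, 6} {0, 1, 6} {0, 4, 5} (by decide +kernel) (by decide +kernel) (by decide +kernel) (by decide +kernel) (by decide +kernel)
    linear_combination -this + h2 + h22 - h4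
  have h39 : u {1, 4, 5} = 0 := by
    have := R 0 {0, 1, 2} {1, 4, 5} {0, 1, 5} {1, 2, 4} (by decide +kernel) (by decide +kernel) (by decide +kernel) (by decide +kernel) (by decide +kernel)
    linear_combination this - h0 + h3 + h29
  have h30 : u {1, 2, 5} = 0 := by
    have := R 0 {0, 1, 4} {1, 2, 5} {0, 1, 5} {1, 2, 4} (by decide +kernel) (by decide +kernel) (by decide +kernel) (by decide +kernel) (by decide +kernel)
    linear_combination this - h2 + h3 + h29
  have h35 : u {1, 3, 5} = 0 := by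
    have := R 0 {0, 1, 3} {1, 4, 5} {0, 1, 4} {1, 3, 5} (by decide +kernel) (by decide +kernel) (by decide +kernel) (by decide +kernel) (by decide +kernel)
    linear_combination -this + h1 + h39 - h2
  have h54 : u {2, 4, 5} = 0 := by
    have := R 1 {0, 2, 3} {2, 4, 5} {0, 2, 5} {2, 3, 4} (by decide +kernel) (by decide +kernel) (by decide +kernel) (by decide +kernel) (by decide +kernel)
    linear_combination this - h7 + h9 + h49
  have h50 : u {2, 3, 5} = 0 := by
    have := R 1 {0, 2, 4} {2, 3, 5} {0, 2, 5} {2, 3, 4} (by decide +kernel) (by decide +kernel) (by decide +kernel) (by decide +kernel) (by decide +kernel)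
    linear_combination this - h8 + h9 + h49
  have h64 : u {3, 4, 5} = 0 := by
    have := R 1 {0, 2, 3} {3, 4, 5} {0, 3, 4} {2, 3, 5} (by decide +kernel) (by decide +kernel) (by decide +kernel) (by decide +kernel) (by decide +kernel)
    linear_combination this - h7 + h13 + h50
  have h44 : u {1, 5, 7} = 0 := by
    have := R 5 {0, 1, 5} {2, 5, 7} {0, 2, 5} {1, 5, 7} (by decide +kernel) (by decide +kernel) (by decide +kernel) (by decide +kernel) (by decide +kernel)
    linear_combination -this + h3 + h59 - h9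
  have h23 : u {0, 5, 7} = 0 := by
    have := R 5 {0, 1, 5} {2, 5, 7} {0, 5, 7} {1, 2, 5} (by decide +kernel) (by decide +kernel) (by decide +kernel) (by decide +kernel) (by decide +kernel)
    linear_combination -this + h3 + h59 - h30
  simp only [L, List.forall_mem_cons]
  exact ⟨h0, h1, h2, h3, h4, h5, h6, h7, h8, h9, h10, h11, h12, h13, h14, h15, h16, h17, h18, h19, h20, h21, h22, h23, h24, h25, h26, h27, h28, h29, h30, h31, h32, h33, h34, h35, h36, h37, h38, h39, h40, h41, h42, h43, h44, h45, h46, h47, h48, h49, h50, h51, h52, h53, h54, h55, h56, h57, h58, h59, h60, h61, h62, h63, h64, h65, h66, h67, h68, h69, h70, h71, h72, h73, h74, h75, h76, h77, h78, h79, h80, h81, h82, h83, fun _ h => absurd h List.not_mem_nil⟩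

end Pool.Agent.N502.DressianRay
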